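import Pool.Agent.Helper29.E3.St3
import Pool.Agent.Helper48.PC.M_MTT

/-!
# Project E3, module MTTX: the main term
-/

set_option autoImplicit false

namespace Pool.Agent.Helper40.E3

open Finset
open Pool.Agent.Helper29.E3 Pool.Agent.Helper49.PC
open Pool.Agent.Helper48.BK (ex th lz Vz Pz gs nd Apx AdN Sol thd StCnt7 StLoc StC30 StEP kp
  mem_Pz_MainT Vz_pos_MainT Vz_ge_MainT lz_nonneg_MainT)

theorem num_MTTX {H Z a b c z B' : ℕ} (ha : 1 ≤ a) (hb : 1 ≤ b) (hc : 1 ≤ c) (hz : 2 ≤ z)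
    (hZ : z ^ (3 * B' + 20) ≤ Z) (hH : H = a * b * c * Z) :
    (z : ℝ) ^ 3 * ((z : ℝ) ^ B' * (4 * (z : ℝ) ^ (2 * B') * ((H : ℝ) / a + (H : ℝ) / b + 1))) ≤
      (H / a : ℝ) * (H / b : ℝ) / (c * 900) / 8 := by
  have haR : (1 : ℝ) ≤ a := by exact_mod_cast ha
  have hbR : (1 : ℝ) ≤ b := by exact_mod_cast hb
  have hcR : (1 : ℝ) ≤ c := by exact_mod_cast hc
  have hzR : (2 : ℝ) ≤ z := by exact_mod_cast hz
  have hz1 : (1 : ℝ) ≤ z := by linarith
  have hZr : (z : ℝ) ^ (3 * B' + 20) ≤ Z := by exact_mod_cast hZ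
  set W : ℝ := (z : ℝ) ^ (3 * B' + 3) with hW
  have hW1 : 1 ≤ W := one_le_pow₀ hz1
  have h17 : (86400 : ℝ) ≤ (z : ℝ) ^ 17 := by
    calc (86400 : ℝ) ≤ 2 ^ 17 := by norm_num
      _ ≤ (z : ℝ) ^ 17 := pow_le_pow_left₀ (by norm_num) hzR 17
  have hsplit : (z : ℝ) ^ (3 * B' + 20) = W * (z : ℝ) ^ 17 := by
    rw [hW, ← pow_add]
  have hWZ : 86400 * W ≤ (Z : ℝ) := by
    refine le_trans ?_ hZr
    rw [hsplit]
    have : W * 86400 ≤ W * (z : ℝ) ^ 17 := mul_le_mul_of_nonneg_left h17 (by positivity)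
    linarith
  have hHr : (H : ℝ) = a * b * c * Z := by rw [hH]; push_cast; ring
  have e1 : (z : ℝ) ^ 3 * ((z : ℝ) ^ B' * (4 * (z : ℝ) ^ (2 * B') *
      ((H : ℝ) / a + (H : ℝ) / b + 1))) = 4 * W * ((H : ℝ) / a + (H : ℝ) / b + 1) := by
    have : W = (z : ℝ) ^ 3 * (z : ℝ) ^ B' * (z : ℝ) ^ (2 * B') := by
      rw [hW, ← pow_add, ← pow_add]
      congr 1
      ring
    rw [this]
    ring
  have e2 : (H : ℝ) / a = b * c * Z := by
    rw [hHr, div_eq_iff (by positivity)]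
    ring
  have e3 : (H : ℝ) / b = a * c * Z := by
    rw [hHr, div_eq_iff (by positivity)]
    ring
  have e4 : ((b : ℝ) * c * Z) * (a * c * Z) / (c * 900) / 8 = a * b * c * Z * Z / 7200 := by
    field_simp
    ring
  rw [e1, e2, e3, e4]
  have hZ0 : (1 : ℝ) ≤ Z := by linarith
  set P : ℝ := (a : ℝ) * b * c * Z with hP
  have hbcZ : (b : ℝ) * c * Z ≤ P := by
    have : 0 ≤ (b : ℝ) * c * Z := by positivity
    rw [hP]
    nlinarith
  have hacZ : (a : ℝ) * c * Z ≤ P := by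
    have : 0 ≤ (a : ℝ) * c * Z := by positivity
    rw [hP]
    nlinarith
  have h1P : 1 ≤ P := by
    refine le_trans ?_ hbcZ
    have : (1 : ℝ) ≤ b * c := by nlinarith
    nlinarith
  have h5 : 86400 * W * P ≤ Z * P := mul_le_mul_of_nonneg_right hWZ (by linarith)
  have h6 : W * ((b : ℝ) * c * Z + a * c * Z + 1) ≤ W * (3 * P) :=
    mul_le_mul_of_nonneg_left (by linarith) (by linarith)
  rw [le_div_iff₀ (by norm_num)]
  nlinarith

theorem sol_MTTX (hb : StCnt7) (hc : StLoc) (hd : StC30) (he : StEP) :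
    ∃ B : ℕ, ∀ (H Z z a b c : ℕ) (d : ℤ), 1 ≤ a → 1 ≤ b → 1 ≤ c → AdN a b c d → |d| ≤ 6 * H →
      2 ≤ z → z ^ B ≤ Z → H = a * b * c * Z →
      1 / 7200 * (H : ℝ) ^ 2 / (a * b * c) ≤
        ∑ v ∈ Sol H a b c d, lz z v.1 * lz z v.2 * lz z (thd a b c d v).toNat := by
  obtain ⟨B', hB'⟩ := Pool.Agent.Helper18.TR.fl 3 (1 / 2) (by norm_num) (by norm_num)
  refine ⟨3 * B' + 20, ?_⟩
  intro H Z z a b c d h1a h1b h1c hAd hdH hz hZ hHZ
  obtain ⟨u₁, u₂, u₃, hu1, hu2, hu3, hu⟩ := hd a b c d hAd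
  have hZ1 : 1 ≤ Z := le_trans (Nat.one_le_pow _ _ (by omega)) hZ
  have hH1 : 1 ≤ H := by
    rw [hHZ]
    exact Nat.one_le_iff_ne_zero.2 (by positivity)
  have hzR : (2 : ℝ) ≤ z := by exact_mod_cast hz
  have haR : (1 : ℝ) ≤ a := by exact_mod_cast h1a
  have hbR : (1 : ℝ) ≤ b := by exact_mod_cast h1b
  have hcR : (1 : ℝ) ≤ c := by exact_mod_cast h1c
  have hHR : (1 : ℝ) ≤ H := by exact_mod_cast hH1
  set Q : Finset ℕ := (Pz z).filter (fun p => 7 ≤ p) with hQ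
  have hQp : ∀ p ∈ Q, p.Prime ∧ p ≤ z := fun p hp =>
    ⟨(mem_Pz_MainT.1 (Finset.mem_filter.1 hp).1).2, (mem_Pz_MainT.1 (Finset.mem_filter.1 hp).1).1⟩
  have hQ7 : ∀ p ∈ Q, 7 ≤ p := fun p hp => (Finset.mem_filter.1 hp).2
  set g : ℕ → ℝ := fun p => (kp a b c d p : ℝ) / (p : ℝ) ^ 2 with hg
  have hg1 : ∀ p ∈ Q, 0 ≤ g p ∧ g p ≤ 3 / p ∧ g p ≤ 1 / 2 := by
    intro p hp
    have h7 : (7 : ℝ) ≤ p := by exact_mod_cast hQ7 p hp
    have h3 := (hc a b c d p hAd (hQp p hp).1 (by have := hQ7 p hp; omega)).2.1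
    have h3' : (kp a b c d p : ℝ) ≤ 3 * p := by exact_mod_cast h3
    have h0 : 0 ≤ g p := by positivity
    have hle : g p ≤ 3 / p := by
      change (kp a b c d p : ℝ) / (p : ℝ) ^ 2 ≤ 3 / p
      rw [div_le_div_iff₀ (by positivity) (by positivity)]
      nlinarith
    refine ⟨h0, hle, hle.trans ?_⟩
    rw [div_le_div_iff₀ (by positivity) (by norm_num)]
    linarith
  set N : ℝ := (H / a : ℝ) * (H / b : ℝ) / (c * 900) with hN
  have hN0 : 0 ≤ N := by positivity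
  set R : ℝ := 4 * (z : ℝ) ^ (2 * B') * ((H : ℝ) / a + (H : ℝ) / b + 1) with hR
  have hR0 : 0 ≤ R := by positivity
  set A : Finset (ℕ × ℕ) := (Sol H a b c d).filter (fun v => (30 : ℤ) ∣ (v.1 : ℤ) - u₁ ∧
    (30 : ℤ) ∣ (v.2 : ℤ) - u₂ ∧ (30 : ℤ) ∣ thd a b c d v - u₃) with hA
  have hcount : ∀ T ⊆ Q, ∏ p ∈ T, p ≤ z ^ B' →
      |((A.filter (fun v => ∀ p ∈ T, (p : ℤ) ∣ v.1 * v.2 * thd a b c d v)).card : ℝ) -
        N * ∏ p ∈ T, g p| ≤ R := by
    intro T hT hprod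
    have h1 := hb H a b c d u₁ u₂ u₃ T h1a h1b h1c hAd hu
      (fun p hp => ⟨(hQp p (hT hp)).1, hQ7 p (hT hp)⟩)
    rw [hA, Finset.filter_filter]
    refine h1.trans ?_
    rw [hR]
    have h2 : ((∏ p ∈ T, p : ℕ) : ℝ) ≤ (z : ℝ) ^ B' := by exact_mod_cast hprod
    have h3 : ((∏ p ∈ T, p : ℕ) : ℝ) ^ 2 ≤ (z : ℝ) ^ (2 * B') := by
      rw [mul_comm 2 B', pow_mul]
      exact pow_le_pow_left₀ (Nat.cast_nonneg _) h2 2
    have h4 : 0 ≤ (H : ℝ) / a + (H : ℝ) / b + 1 := by positivity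
    exact mul_le_mul_of_nonneg_right (mul_le_mul_of_nonneg_left h3 (by norm_num)) h4
  have hfl := hB' z hz Q hQp g hg1 (ℕ × ℕ) A
    (fun p v => (p : ℤ) ∣ v.1 * v.2 * thd a b c d v) N R hN0 hR0 hcount
  set S : Finset (ℕ × ℕ) := A.filter
    (fun v => ∀ p ∈ Q, ¬ (p : ℤ) ∣ v.1 * v.2 * thd a b c d v) with hS
  -- the sum is at least the number of points of `S` times `1 / V ^ 3`
  have hsum : (S.card : ℝ) * (1 / Vz z) ^ 3 ≤
      ∑ v ∈ Sol H a b c d, lz z v.1 * lz z v.2 * lz z (thd a b c d v).toNat := by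
    have hsub : S ⊆ Sol H a b c d := (Finset.filter_subset _ _).trans (Finset.filter_subset _ _)
    refine le_trans ?_ (Finset.sum_le_sum_of_subset_of_nonneg hsub fun v _ _ =>
      mul_nonneg (mul_nonneg (lz_nonneg_MainT _ _) (lz_nonneg_MainT _ _)) (lz_nonneg_MainT _ _))
    rw [← nsmul_eq_mul, ← Finset.sum_const]
    apply Finset.sum_le_sum
    intro v hv
    obtain ⟨h1, h2⟩ := Finset.mem_filter.1 hv
    obtain ⟨h3, h4⟩ := Finset.mem_filter.1 h1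
    exact (wt_MTT h1c hdH hu1 hu2 hu3 h3 h4 h2).ge
  refine le_trans ?_ hsum
  have hV := Vz_pos_MainT z
  have hVz : 1 / Vz z ≤ z := by
    rw [div_le_iff₀ hV]
    have h1 := Vz_ge_MainT z (by omega)
    rw [div_le_iff₀ (by linarith)] at h1
    linarith
  have hV3 : (1 / Vz z) ^ 3 ≤ (z : ℝ) ^ 3 := pow_le_pow_left₀ (one_div_pos.2 hV).le hVz 3
  have hV0 : 0 ≤ (1 / Vz z) ^ 3 := by positivity
  have hprod : ∏ p ∈ Q, ((1 - 1 / (p : ℝ)) * (1 - 2 / (p : ℝ))) ≤ ∏ p ∈ Q, (1 - g p) := by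
    apply Finset.prod_le_prod
    · intro p hp
      have h7 : (7 : ℝ) ≤ p := by exact_mod_cast hQ7 p hp
      have h1 : 1 / (p : ℝ) ≤ 1 / 7 := one_div_le_one_div_of_le (by norm_num) h7
      have h2 : 2 / (p : ℝ) = 2 * (1 / p) := by ring
      rw [h2]
      exact mul_nonneg (by linarith) (by linarith)
    · intro p hp
      have h7 : (7 : ℝ) ≤ p := by exact_mod_cast hQ7 p hp
      have h3 := (hc a b c d p hAd (hQp p hp).1 (by have := hQ7 p hp; omega)).1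
      have hp1 : 1 ≤ p := by have := hQ7 p hp; omega
      have hp2 : 2 ≤ p := by have := hQ7 p hp; omega
      have h4 : (kp a b c d p : ℝ) + ((p : ℝ) - 1) * (p - 2) ≤ (p : ℝ) ^ 2 := by
        have h5 : ((kp a b c d p + (p - 1) * (p - 2) : ℕ) : ℝ) ≤ ((p ^ 2 : ℕ) : ℝ) := by
          exact_mod_cast h3
        push_cast [Nat.cast_sub hp1, Nat.cast_sub hp2] at h5
        linarith
      have hp0 : (0 : ℝ) < (p : ℝ) ^ 2 := by positivity
      have h6 : (1 - 1 / (p : ℝ)) * (1 - 2 / (p : ℝ)) = (((p : ℝ) - 1) * (p - 2)) / p ^ 2 := by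
        field_simp
      rw [h6]
      change _ ≤ 1 - (kp a b c d p : ℝ) / (p : ℝ) ^ 2
      have h7 : 1 - (kp a b c d p : ℝ) / (p : ℝ) ^ 2 =
          ((p : ℝ) ^ 2 - kp a b c d p) / (p : ℝ) ^ 2 := by
        rw [sub_div, div_self hp0.ne']
      rw [h7]
      exact div_le_div_of_nonneg_right (by linarith) hp0.le
  have hEP := he z
  have hmain : 1 / 2 ≤ (1 / Vz z) ^ 3 * ∏ p ∈ Q, (1 - g p) :=
    hEP.trans (mul_le_mul_of_nonneg_left hprod hV0)
  have hlow : N * (∏ p ∈ Q, (1 - g p)) / 2 - (z : ℝ) ^ B' * R ≤ S.card := by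
    have h1 := (abs_le.1 hfl).1
    linarith
  have hnum := num_MTTX (B' := B') h1a h1b h1c hz hZ hHZ
  have h8 : (N * (∏ p ∈ Q, (1 - g p)) / 2 - (z : ℝ) ^ B' * R) * (1 / Vz z) ^ 3 ≤
      (S.card : ℝ) * (1 / Vz z) ^ 3 := mul_le_mul_of_nonneg_right hlow hV0
  refine le_trans ?_ h8
  have h9 : (z : ℝ) ^ B' * R * (1 / Vz z) ^ 3 ≤ N / 8 := by
    have h10 : (z : ℝ) ^ B' * R * (1 / Vz z) ^ 3 ≤ (z : ℝ) ^ B' * R * (z : ℝ) ^ 3 :=
      mul_le_mul_of_nonneg_left hV3 (by positivity)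
    refine h10.trans (le_trans (le_of_eq ?_) hnum)
    rw [hR]
    ring
  have h11 : N / 4 ≤ N * (∏ p ∈ Q, (1 - g p)) / 2 * (1 / Vz z) ^ 3 := by
    have h12 : N * (1 / 2) ≤ N * ((1 / Vz z) ^ 3 * ∏ p ∈ Q, (1 - g p)) :=
      mul_le_mul_of_nonneg_left hmain hN0
    have h13 : N * (∏ p ∈ Q, (1 - g p)) / 2 * (1 / Vz z) ^ 3 =
        N * ((1 / Vz z) ^ 3 * ∏ p ∈ Q, (1 - g p)) / 2 := by ring
    rw [h13]
    linarith
  have h14 : 1 / 7200 * (H : ℝ) ^ 2 / (a * b * c) = N / 8 := by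
    rw [hN]
    field_simp
    ring
  rw [h14, sub_mul]
  linarith


theorem hMTTX (hCnt7 : Pool.Agent.Helper48.BK.StCnt7) (hLoc : Pool.Agent.Helper48.BK.StLoc)
    (hC30 : Pool.Agent.Helper48.BK.StC30) (hEP : Pool.Agent.Helper48.BK.StEP) : StMTTX := by
  obtain ⟨B, hB⟩ := sol_MTTX hCnt7 hLoc hC30 hEP
  refine ⟨1 / 7200, by norm_num, B, ?_⟩
  intro a b c Z z d ha hb hc hAd hd hz hZ
  have hd' : |d| ≤ 6 * ((a * b * c * Z : ℕ) : ℤ) := by push_cast; exact hd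
  have key := hB (a * b * c * Z) Z z a b c d ha hb hc hAd hd' hz hZ rfl
  have haR : (0 : ℝ) < a := by exact_mod_cast ha
  have hbR : (0 : ℝ) < b := by exact_mod_cast hb
  have hcR : (0 : ℝ) < c := by exact_mod_cast hc
  have e1 : 1 / 7200 * ((a * b * c * Z : ℕ) : ℝ) ^ 2 / (a * b * c) =
      1 / 7200 * (a * b * c * Z ^ 2) := by
    push_cast
    field_simp
  rw [e1] at key
  refine key.trans ?_
  set H := a * b * c * Z with hHdef
  set f := cut (lz z) (4 * (b * c) * Z) (5 * (b * c) * Z) with hf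
  set g := cut (lz z) (4 * (a * c) * Z) (5 * (a * c) * Z) with hg
  set h := cut (lz z) (2 * (a * b) * Z) (16 * (a * b) * Z) with hh
  have hcut : ∀ u w n, 0 ≤ cut (lz z) u w n := by
    intro u w n
    unfold cut
    split_ifs
    · exact lz_nonneg_MainT z n
    · exact le_rfl
  have hsub : Sol H a b c d ⊆ (Ioc 0 (b * c * (16 * Z))) ×ˢ (Ioc 0 (a * c * (16 * Z))) := by
    intro v hv
    rw [Sol, Finset.mem_filter] at hv
    obtain ⟨h0, h1, h2, h3, h4, _⟩ := hv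
    rw [mem_product, mem_Icc, mem_Icc] at h0
    rw [mem_product, mem_Ioc, mem_Ioc]
    refine ⟨⟨by omega, ?_⟩, by omega, ?_⟩
    · have : a * v.1 ≤ a * (b * c * (16 * Z)) := by
        refine h2.trans ?_
        rw [hHdef]
        nlinarith [Nat.zero_le (a * b * c * Z)]
      exact Nat.le_of_mul_le_mul_left this (by omega)
    · have : b * v.2 ≤ b * (a * c * (16 * Z)) := by
        refine h4.trans ?_
        rw [hHdef]
        nlinarith [Nat.zero_le (a * b * c * Z)]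
      exact Nat.le_of_mul_le_mul_left this (by omega)
  have hT : T3 f g h (b * c * (16 * Z)) (a * c * (16 * Z)) (a * b * (16 * Z)) a b c d =
      ∑ v ∈ (Ioc 0 (b * c * (16 * Z))) ×ˢ (Ioc 0 (a * c * (16 * Z))),
        ∑ l ∈ Ioc 0 (a * b * (16 * Z)),
          if (a : ℤ) * v.1 + b * v.2 = c * l + d then f v.1 * g v.2 * h l else 0 := by
    rw [T3, Finset.sum_product]
  rw [hT]
  have hnn : ∀ (v : ℕ × ℕ) (l : ℕ), 0 ≤ (if (a : ℤ) * v.1 + b * v.2 = c * l + d then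
      f v.1 * g v.2 * h l else 0) := by
    intro v l
    split_ifs
    · exact mul_nonneg (mul_nonneg (hcut _ _ _) (hcut _ _ _)) (hcut _ _ _)
    · exact le_rfl
  refine le_trans ?_ (Finset.sum_le_sum_of_subset_of_nonneg hsub fun v _ _ =>
    Finset.sum_nonneg fun l _ => hnn v l)
  apply Finset.sum_le_sum
  intro v hv
  obtain ⟨hp, he⟩ := thd_MTT hc hd' hv
  have hto : (((thd a b c d v).toNat : ℕ) : ℤ) = thd a b c d v := Int.toNat_of_nonneg hp.le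
  have hv' := hv
  rw [Sol, Finset.mem_filter] at hv'
  obtain ⟨_, h1, h2, h3, h4, _⟩ := hv'
  have hdl := (abs_le.1 hd')
  have hH0 : (0 : ℤ) ≤ (H : ℤ) := Int.natCast_nonneg H
  have hl1 : 2 * H < c * (thd a b c d v).toNat := by
    have : (2 : ℤ) * H < c * ((thd a b c d v).toNat : ℕ) := by
      rw [hto, he]
      have h5 : (4 * H : ℤ) < a * v.1 := by exact_mod_cast h1
      have h6 : (4 * H : ℤ) < b * v.2 := by exact_mod_cast h3
      linarith [hdl.2]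
    exact_mod_cast this
  have hl2 : c * (thd a b c d v).toNat ≤ 16 * H := by
    have : (c : ℤ) * ((thd a b c d v).toNat : ℕ) ≤ 16 * H := by
      rw [hto, he]
      have h5 : (a * v.1 : ℤ) ≤ 5 * H := by exact_mod_cast h2
      have h6 : (b * v.2 : ℤ) ≤ 5 * H := by exact_mod_cast h4
      linarith [hdl.1]
    exact_mod_cast this
  have hH1 : 4 * H = a * (4 * (b * c) * Z) := by rw [hHdef]; ring
  have hH2 : 5 * H = a * (5 * (b * c) * Z) := by rw [hHdef]; ring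
  have hH3 : 4 * H = b * (4 * (a * c) * Z) := by rw [hHdef]; ring
  have hH4 : 5 * H = b * (5 * (a * c) * Z) := by rw [hHdef]; ring
  have hH5 : 2 * H = c * (2 * (a * b) * Z) := by rw [hHdef]; ring
  have hH6 : 16 * H = c * (16 * (a * b) * Z) := by rw [hHdef]; ring
  have hfv : f v.1 = lz z v.1 := by
    rw [hf, cut, if_pos]
    rw [hH1] at h1
    rw [hH2] at h2
    exact ⟨Nat.lt_of_mul_lt_mul_left h1, Nat.le_of_mul_le_mul_left h2 (by omega)⟩
  have hgv : g v.2 = lz z v.2 := by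
    rw [hg, cut, if_pos]
    rw [hH3] at h3
    rw [hH4] at h4
    exact ⟨Nat.lt_of_mul_lt_mul_left h3, Nat.le_of_mul_le_mul_left h4 (by omega)⟩
  have hhv : h (thd a b c d v).toNat = lz z (thd a b c d v).toNat := by
    rw [hh, cut, if_pos]
    rw [hH5] at hl1
    rw [hH6] at hl2
    exact ⟨Nat.lt_of_mul_lt_mul_left hl1, Nat.le_of_mul_le_mul_left hl2 (by omega)⟩
  have hmem : (thd a b c d v).toNat ∈ Ioc 0 (a * b * (16 * Z)) := by
    rw [mem_Ioc]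
    refine ⟨by omega, ?_⟩
    rw [hH6] at hl2
    have := Nat.le_of_mul_le_mul_left hl2 (by omega)
    refine this.trans (le_of_eq ?_)
    ring
  refine le_trans (le_of_eq ?_) (Finset.single_le_sum (fun l _ => hnn v l) hmem)
  rw [if_pos, hfv, hgv, hhv]
  rw [hto, he]
  ring

end Pool.Agent.Helper40.E3
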